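import Pool.Agent.Work.MP_2738db_nt_Z.Interface
import Pool.Agent.Work.MP_2738db_nt_U_helper15.SMO
import Pool.Agent.Work.MP_2738db_nt_V.Mert

set_option autoImplicit false

namespace Pool.Agent.Work.MP_2738db_nt_Z.helper23

open Finset
open Pool.Agent.Work.MP_2738db_nt_U.helper15 (DS DS_le count_le omega_le)

/-- the sum of `1/p` up to `exp (2^J)` -/
lemma sum_inv_primes (J : ℕ) :
    ∑ p ∈ (Ioc 0 ⌊Real.exp ((2 : ℝ) ^ J)⌋₊).filter Nat.Prime, (p : ℝ)⁻¹ ≤ 2 + 3.4 * J := by
  induction J with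
  | zero =>
    have h1 : ∑ p ∈ (Ioc 0 ⌊Real.exp ((2 : ℝ) ^ 0)⌋₊).filter Nat.Prime, (p : ℝ)⁻¹
        ≤ ∑ n ∈ Icc 1 ⌊Real.exp ((2 : ℝ) ^ 0)⌋₊, (n : ℝ)⁻¹ := by
      apply sum_le_sum_of_subset_of_nonneg
      · intro p hp
        rw [mem_filter, mem_Ioc] at hp
        rw [mem_Icc]
        exact ⟨hp.1.1, hp.1.2⟩
      · intro i _ _
        positivity
    have h4 := harmonic_floor_le_one_add_log (Real.exp ((2 : ℝ) ^ 0)) (Real.one_le_exp (by norm_num))
    rw [harmonic_eq_sum_Icc] at h4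
    push_cast at h4
    rw [Real.log_exp] at h4
    norm_num at h1 h4 ⊢
    linarith
  | succ J ih =>
    set N : ℕ := ⌊Real.exp ((2 : ℝ) ^ (J + 1))⌋₊ with hN
    set M : ℕ := ⌊Real.exp ((2 : ℝ) ^ J)⌋₊ with hM
    have h2J : (0 : ℝ) < 2 ^ J := by positivity
    have hN1 : 1 ≤ N := Nat.le_floor (by
      push_cast
      exact Real.one_le_exp (by positivity))
    have hNle : (N : ℝ) ≤ Real.exp ((2 : ℝ) ^ (J + 1)) := Nat.floor_le (Real.exp_pos _).le
    rw [← sum_filter_add_sum_filter_not ((Ioc 0 N).filter Nat.Prime) (fun p => p ≤ M)]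
    have hA : ∑ p ∈ ((Ioc 0 N).filter Nat.Prime).filter (fun p => p ≤ M), (p : ℝ)⁻¹
        ≤ 2 + 3.4 * J := by
      refine le_trans ?_ ih
      apply sum_le_sum_of_subset_of_nonneg
      · intro p hp
        rw [mem_filter, mem_filter, mem_Ioc] at hp
        rw [mem_filter, mem_Ioc]
        exact ⟨⟨hp.1.1.1, hp.2⟩, hp.1.2⟩
      · intro i _ _
        positivity
    have hB : ∑ p ∈ ((Ioc 0 N).filter Nat.Prime).filter (fun p => ¬ p ≤ M), (p : ℝ)⁻¹ ≤ 3.4 := by
      have h1 : ∀ p ∈ ((Ioc 0 N).filter Nat.Prime).filter (fun p => ¬ p ≤ M),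
          (p : ℝ)⁻¹ ≤ (2 ^ J : ℝ)⁻¹ * (Real.log p / p) := by
        intro p hp
        rw [mem_filter, mem_filter, mem_Ioc, not_le] at hp
        have hp0 : (0 : ℝ) < p := by exact_mod_cast hp.1.1.1
        have hpM : Real.exp ((2 : ℝ) ^ J) < p := by
          rw [hM] at hp
          exact (Nat.floor_lt (Real.exp_pos _).le).1 hp.2
        have hlog : (2 : ℝ) ^ J ≤ Real.log p := (Real.le_log_iff_exp_le hp0).mpr hpM.le
        have h2 : (2 ^ J : ℝ)⁻¹ * (Real.log p / p) = (Real.log p / 2 ^ J) * (p : ℝ)⁻¹ := by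
          field_simp
        rw [h2]
        have h3 : 1 ≤ Real.log p / 2 ^ J := by rwa [one_le_div h2J]
        have h4 : 0 ≤ (p : ℝ)⁻¹ := by positivity
        nlinarith
      refine (sum_le_sum h1).trans ?_
      rw [← mul_sum]
      have h2 : ∑ p ∈ ((Ioc 0 N).filter Nat.Prime).filter (fun p => ¬ p ≤ M), Real.log p / p
          ≤ ∑ p ∈ (Ioc 0 N).filter Nat.Prime, Real.log p / p := by
        apply sum_le_sum_of_subset_of_nonneg (filter_subset _ _)
        intro i hi _
        rw [mem_filter] at hi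
        have : (1 : ℝ) ≤ i := by exact_mod_cast hi.2.one_lt.le
        have := Real.log_nonneg this
        positivity
      have h3 := Pool.Agent.Work.MP_2738db_nt_V.mertens_upper N hN1
      have h4 : Real.log N ≤ 2 ^ (J + 1) := by
        rw [Real.log_le_iff_le_exp (by exact_mod_cast hN1)]
        exact hNle
      have h5 : ∑ p ∈ ((Ioc 0 N).filter Nat.Prime).filter (fun p => ¬ p ≤ M), Real.log p / p
          ≤ 3.4 * 2 ^ J := by
        have h6 : (1 : ℝ) ≤ 2 ^ J := one_le_pow₀ (by norm_num)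
        have h7 : (2 : ℝ) ^ (J + 1) = 2 * 2 ^ J := by ring
        rw [h7] at h4
        linarith
      calc (2 ^ J : ℝ)⁻¹ * ∑ p ∈ ((Ioc 0 N).filter Nat.Prime).filter (fun p => ¬ p ≤ M), Real.log p / p
          ≤ (2 ^ J : ℝ)⁻¹ * (3.4 * 2 ^ J) := mul_le_mul_of_nonneg_left h5 (by positivity)
        _ = 3.4 := by field_simp
    push_cast
    linarith

/-- the `z`-smooth part -/
noncomputable def smp (z : ℝ) (k : ℕ) : ℕ :=
  ∏ p ∈ k.primeFactors.filter (fun p : ℕ => (p : ℝ) ≤ z), p ^ k.factorization p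

lemma smp_dvd_gcd (z : ℝ) (k g : ℕ) (hk : k ≠ 0) (hg : g ∣ k)
    (h : ∀ p : ℕ, p.Prime → p ∣ g → (p : ℝ) ≤ z) : g ∣ smp z k := by
  have h1 : smp z k * (∏ p ∈ k.primeFactors.filter (fun p : ℕ => ¬ (p : ℝ) ≤ z), p ^ k.factorization p)
      = k := by
    unfold smp
    rw [prod_filter_mul_prod_filter_not]
    exact Nat.prod_factorization_pow_eq_self hk
  have h2 : Nat.Coprime g (∏ p ∈ k.primeFactors.filter (fun p : ℕ => ¬ (p : ℝ) ≤ z),
      p ^ k.factorization p) := by
    apply Nat.Coprime.prod_right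
    intro p hp
    rw [mem_filter] at hp
    apply Nat.Coprime.pow_right
    rw [Nat.coprime_comm, Nat.Prime.coprime_iff_not_dvd (Nat.prime_of_mem_primeFactors hp.1)]
    intro hd
    exact hp.2 (h p (Nat.prime_of_mem_primeFactors hp.1) hd)
  apply h2.dvd_of_dvd_mul_right
  rw [h1]
  exact hg

lemma smp_pos (z : ℝ) (k : ℕ) : 1 ≤ smp z k := by
  unfold smp
  apply Nat.succ_le_of_lt
  apply prod_pos
  intro p hp
  rw [mem_filter] at hp
  exact pow_pos (Nat.prime_of_mem_primeFactors hp.1).pos _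

lemma smp_primeFactors (z : ℝ) (k p : ℕ) (hp : p ∈ (smp z k).primeFactors) : (p : ℝ) ≤ z := by
  rw [Nat.mem_primeFactors] at hp
  obtain ⟨hpp, hd, _⟩ := hp
  unfold smp at hd
  obtain ⟨q, hq, hpq⟩ := (hpp.prime.dvd_finsetProd_iff _).1 hd
  rw [mem_filter] at hq
  have := hpp.dvd_of_dvd_pow hpq
  rw [Nat.prime_dvd_prime_iff_eq hpp (Nat.prime_of_mem_primeFactors hq.1)] at this
  rw [this]
  exact hq.2

open Classical in
/-- `k₀` with a large common prime factor -/
lemma count_large (K z : ℝ) (hK : 0 ≤ K) (hz : 0 < z) (k : ℕ) (hk : 1 ≤ k) :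
    (((Icc 1 ⌊K⌋₊).filter (fun k₀ => ∃ p : ℕ, p.Prime ∧ z < p ∧ p ∣ k ∧ p ∣ k₀)).card : ℝ)
      ≤ 2 * Real.log k * (K / z) := by
  have h1 : (Icc 1 ⌊K⌋₊).filter (fun k₀ => ∃ p : ℕ, p.Prime ∧ z < p ∧ p ∣ k ∧ p ∣ k₀) ⊆
      (k.primeFactors.filter (fun p : ℕ => z < (p : ℝ))).biUnion
        (fun p => (Icc 1 ⌊K⌋₊).filter (fun k₀ => p ∣ k₀)) := by
    intro k₀ h
    rw [mem_filter] at h
    obtain ⟨hk0, p, hp, hzp, hpk, hpk0⟩ := h
    rw [mem_biUnion]
    refine ⟨p, ?_, ?_⟩
    · rw [mem_filter, Nat.mem_primeFactors]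
      exact ⟨⟨hp, hpk, by omega⟩, hzp⟩
    · rw [mem_filter]
      exact ⟨hk0, hpk0⟩
  have h2 : (((Icc 1 ⌊K⌋₊).filter (fun k₀ => ∃ p : ℕ, p.Prime ∧ z < p ∧ p ∣ k ∧ p ∣ k₀)).card : ℝ) ≤
      ∑ p ∈ k.primeFactors.filter (fun p : ℕ => z < (p : ℝ)),
        (((Icc 1 ⌊K⌋₊).filter (fun k₀ => p ∣ k₀)).card : ℝ) := by
    have := (card_le_card h1).trans card_biUnion_le
    exact_mod_cast this
  refine h2.trans ?_
  have h3 : ∀ p ∈ k.primeFactors.filter (fun p : ℕ => z < (p : ℝ)),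
      (((Icc 1 ⌊K⌋₊).filter (fun k₀ => p ∣ k₀)).card : ℝ) ≤ K / z := by
    intro p hp
    rw [mem_filter] at hp
    have h4 : ((Icc 1 ⌊K⌋₊).filter (fun k₀ => p ∣ k₀)).card = ⌊K⌋₊ / p := by
      have := Nat.Ioc_filter_dvd_card_eq_div ⌊K⌋₊ p
      rw [← this]
      congr 1
    rw [h4]
    have h5 : ((⌊K⌋₊ / p : ℕ) : ℝ) ≤ K / p := by
      refine Nat.cast_div_le.trans ?_
      exact div_le_div_of_nonneg_right (Nat.floor_le hK) (by positivity)
    exact h5.trans (div_le_div_of_nonneg_left hK hz hp.2.le)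
  refine (sum_le_card_nsmul _ _ _ h3).trans ?_
  rw [nsmul_eq_mul]
  apply mul_le_mul_of_nonneg_right _ (by positivity)
  refine le_trans ?_ (omega_le k (by omega))
  exact_mod_cast card_filter_le _ _

/-- the main estimate with explicit conditions on `t` -/
lemma main (η : ℝ) (hη0 : 0 < η) (hη1 : η < 1) (t : ℝ) (ht : 512 ≤ t)
    (c1 : Real.log (1024 * t) ≤ t ^ (1 - η)) (c3 : 60 * t ^ (η / 2) + 2 ≤ 3 * η / 80 * t ^ η)
    (K : ℝ) (hK1 : Real.exp (t / 2) ≤ K) (k : ℕ) (hk : 1 ≤ k)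
    (hlog : Real.log k ≤ Real.exp (t ^ (1 - η))) :
    (((Icc 1 ⌊K⌋₊).filter (fun k₀ => K ^ (3 / 10 : ℝ) < (Nat.gcd k k₀ : ℝ))).card : ℝ)
      ≤ K / (256 * t) := by
  classical
  have ht0 : 0 < t := by linarith
  have hK0 : 0 < K := lt_of_lt_of_le (Real.exp_pos _) hK1
  have hlogK : t / 2 ≤ Real.log K := (Real.le_log_iff_exp_le hK0).mpr hK1
  obtain ⟨s, hs⟩ : ∃ s : ℝ, s = t ^ (1 - η) := ⟨_, rfl⟩
  rw [← hs] at hlog c1
  have hlt : 1 ≤ Real.log t := by
    rw [Real.le_log_iff_exp_le ht0]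
    have := Real.exp_one_lt_d9
    linarith
  have hlt' : Real.log t ≤ s := by
    refine le_trans ?_ c1
    exact Real.log_le_log ht0 (by linarith)
  have hs0 : 0 < s := by linarith
  have hst : s * t ^ η = t := by
    rw [hs, ← Real.rpow_add ht0]; norm_num
  have hs_le : s ≤ t := by
    rw [hs]
    calc t ^ (1 - η) ≤ t ^ (1 : ℝ) := Real.rpow_le_rpow_of_exponent_le (by linarith) (by linarith)
      _ = t := Real.rpow_one t
  set z : ℝ := Real.exp (2 * s) with hz
  have hz0 : 0 < z := Real.exp_pos _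
  set S : ℝ := K ^ (3 / 10 : ℝ) with hS
  have hS0 : 0 < S := by positivity
  set σ : ℝ := η * Real.log t / (4 * s) with hσ
  have hσ0 : 0 ≤ σ := by positivity
  have hσ1 : σ ≤ 1 / 2 := by
    rw [hσ, div_le_iff₀ (by positivity)]
    nlinarith
  -- the splitting
  have hsub : (Icc 1 ⌊K⌋₊).filter (fun k₀ => S < (Nat.gcd k k₀ : ℝ)) ⊆
      ((Icc 1 ⌊K⌋₊).filter (fun k₀ => ∃ p : ℕ, p.Prime ∧ z < p ∧ p ∣ k ∧ p ∣ k₀)) ∪
      ((Icc 1 ⌊K⌋₊).filter (fun k₀ => S < (Nat.gcd (smp z k) k₀ : ℝ))) := by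
    intro k₀ h
    rw [mem_filter] at h
    rw [mem_union, mem_filter, mem_filter]
    by_cases hc : ∃ p : ℕ, p.Prime ∧ z < p ∧ p ∣ k ∧ p ∣ k₀
    · exact Or.inl ⟨h.1, hc⟩
    · refine Or.inr ⟨h.1, ?_⟩
      push Not at hc
      have h1 : Nat.gcd k k₀ ∣ smp z k := by
        apply smp_dvd_gcd z k _ (by omega) (Nat.gcd_dvd_left _ _)
        intro p hp hpg
        by_contra hcon
        rw [not_le] at hcon
        exact hc p hp hcon (hpg.trans (Nat.gcd_dvd_left _ _)) (hpg.trans (Nat.gcd_dvd_right _ _))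
      have h2 : Nat.gcd k k₀ ≤ Nat.gcd (smp z k) k₀ := by
        apply Nat.le_of_dvd
        · exact Nat.gcd_pos_of_pos_left _ (smp_pos z k)
        · exact Nat.dvd_gcd h1 (Nat.gcd_dvd_right _ _)
      have h3 : (Nat.gcd k k₀ : ℝ) ≤ (Nat.gcd (smp z k) k₀ : ℝ) := by exact_mod_cast h2
      linarith [h.2]
  have hcard : (((Icc 1 ⌊K⌋₊).filter (fun k₀ => S < (Nat.gcd k k₀ : ℝ))).card : ℝ) ≤
      (((Icc 1 ⌊K⌋₊).filter (fun k₀ => ∃ p : ℕ, p.Prime ∧ z < p ∧ p ∣ k ∧ p ∣ k₀)).card : ℝ) +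
      (((Icc 1 ⌊K⌋₊).filter (fun k₀ => S < (Nat.gcd (smp z k) k₀ : ℝ))).card : ℝ) := by
    have := (card_le_card hsub).trans (card_union_le _ _)
    exact_mod_cast this
  -- (a)
  have hA : (((Icc 1 ⌊K⌋₊).filter (fun k₀ => ∃ p : ℕ, p.Prime ∧ z < p ∧ p ∣ k ∧ p ∣ k₀)).card : ℝ)
      ≤ K / (512 * t) := by
    refine (count_large K z hK0.le hz0 k hk).trans ?_
    have h1 : 2 * Real.log k * (K / z) ≤ 2 * Real.exp s * (K / z) := by
      apply mul_le_mul_of_nonneg_right _ (by positivity)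
      linarith
    refine h1.trans ?_
    have h2 : 1024 * t ≤ Real.exp s := by
      rwa [← Real.log_le_iff_le_exp (by positivity)]
    have h3 : 2 * Real.exp s * (K / z) = 2 * K / Real.exp s := by
      rw [hz, two_mul s, Real.exp_add]
      field_simp
    rw [h3, div_le_div_iff₀ (Real.exp_pos _) (by positivity)]
    nlinarith
  -- (b)
  have hB : (((Icc 1 ⌊K⌋₊).filter (fun k₀ => S < (Nat.gcd (smp z k) k₀ : ℝ))).card : ℝ)
      ≤ K / (512 * t) := by
    refine (count_le K S σ hK0.le hS0 hσ0 (smp z k) (smp_pos z k)).trans ?_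
    have h1 := DS_le (1 - σ) (by linarith) (smp z k) (by have := smp_pos z k; omega)
    -- the prime sum
    obtain ⟨J, hJ⟩ : ∃ J : ℕ, J = ⌈Real.log (2 * s) / Real.log 2⌉₊ := ⟨_, rfl⟩
    have hl2 : 0 < Real.log 2 := Real.log_pos (by norm_num)
    have hJ1 : 2 * s ≤ 2 ^ J := by
      have h2 : Real.log (2 * s) / Real.log 2 ≤ J := by rw [hJ]; exact Nat.le_ceil _
      rw [div_le_iff₀ hl2, ← Real.log_pow] at h2
      rwa [Real.log_le_log_iff (by positivity) (by positivity)] at h2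
    have hls : 0 ≤ Real.log (2 * s) := Real.log_nonneg (by linarith)
    have hJ2 : (J : ℝ) ≤ 4 * Real.log t := by
      have h2 : (J : ℝ) < Real.log (2 * s) / Real.log 2 + 1 := by
        rw [hJ]
        exact Nat.ceil_lt_add_one (by positivity)
      have h3 : (1 / 2 : ℝ) ≤ Real.log 2 := by
        have := Real.log_two_gt_d9
        linarith
      have h4 : Real.log (2 * s) / Real.log 2 ≤ 2 * Real.log (2 * s) := by
        rw [div_le_iff₀ hl2]
        nlinarith
      have h5 : Real.log (2 * s) ≤ Real.log 2 + Real.log t := by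
        rw [← Real.log_mul (by norm_num) ht0.ne']
        apply Real.log_le_log (by positivity)
        linarith
      have h6 : Real.log 2 ≤ Real.log t / 9 := by
        have h7 : (9 : ℝ) * Real.log 2 ≤ Real.log t := by
          have : (9 : ℝ) * Real.log 2 = Real.log 512 := by
            rw [show (512 : ℝ) = 2 ^ 9 by norm_num, Real.log_pow]; norm_num
          rw [this]
          exact Real.log_le_log (by norm_num) ht
        linarith
      have h7 : (6 : ℝ) ≤ Real.log t := by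
        have h8 : (9 : ℝ) * Real.log 2 ≤ Real.log t := by linarith
        have := Real.log_two_gt_d9
        linarith
      linarith
    have hsum : ∑ p ∈ (smp z k).primeFactors, (p : ℝ) ^ (-(1 - σ)) ≤ t ^ (η / 2) * (15 * Real.log t) := by
      have hzσ : z ^ σ = t ^ (η / 2) := by
        rw [hz, ← Real.exp_mul, Real.rpow_def_of_pos ht0, hσ]
        congr 1
        field_simp
        ring
      have h2 : ∀ p ∈ (smp z k).primeFactors, (p : ℝ) ^ (-(1 - σ)) ≤ t ^ (η / 2) * (p : ℝ)⁻¹ := by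
        intro p hp
        have hpz := smp_primeFactors z k p hp
        have hp0 : (0 : ℝ) < p := by exact_mod_cast (Nat.prime_of_mem_primeFactors hp).pos
        have h3 : (p : ℝ) ^ (-(1 - σ)) = (p : ℝ) ^ σ * (p : ℝ)⁻¹ := by
          rw [← Real.rpow_neg_one, ← Real.rpow_add hp0]
          congr 1
          ring
        rw [h3, ← hzσ]
        apply mul_le_mul_of_nonneg_right _ (by positivity)
        exact Real.rpow_le_rpow hp0.le hpz hσ0
      refine (sum_le_sum h2).trans ?_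
      rw [← mul_sum]
      apply mul_le_mul_of_nonneg_left _ (by positivity)
      have h3 : ∑ p ∈ (smp z k).primeFactors, (p : ℝ)⁻¹
          ≤ ∑ p ∈ (Ioc 0 ⌊Real.exp ((2 : ℝ) ^ J)⌋₊).filter Nat.Prime, (p : ℝ)⁻¹ := by
        apply sum_le_sum_of_subset_of_nonneg
        · intro p hp
          have hpz := smp_primeFactors z k p hp
          have hpp := Nat.prime_of_mem_primeFactors hp
          rw [mem_filter, mem_Ioc]
          refine ⟨⟨hpp.pos, Nat.le_floor (hpz.trans ?_)⟩, hpp⟩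
          rw [hz]
          exact Real.exp_le_exp.mpr hJ1
        · intro i _ _
          positivity
      have h4 := sum_inv_primes J
      have h7 : (6 : ℝ) ≤ Real.log t := by
        have h8 : (9 : ℝ) * Real.log 2 ≤ Real.log t := by
          have : (9 : ℝ) * Real.log 2 = Real.log 512 := by
            rw [show (512 : ℝ) = 2 ^ 9 by norm_num, Real.log_pow]; norm_num
          rw [this]
          exact Real.log_le_log (by norm_num) ht
        have := Real.log_two_gt_d9
        linarith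
      linarith
    have h2 : DS (1 - σ) (smp z k) ≤ Real.exp (60 * t ^ (η / 2) * Real.log t) := by
      refine h1.trans (Real.exp_le_exp.mpr ?_)
      linarith
    have h3 : S ^ (-σ) ≤ Real.exp (-(3 * η / 80 * t ^ η * Real.log t)) := by
      rw [hS, ← Real.rpow_mul hK0.le, Real.rpow_def_of_pos hK0]
      apply Real.exp_le_exp.mpr
      have h5 : 3 * η / 80 * t ^ η * Real.log t = (t / 2) * (3 / 10 * σ) := by
        have h6 : t / s = t ^ η := by
          rw [div_eq_iff hs0.ne', mul_comm]; exact hst.symm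
        rw [hσ, ← h6]
        field_simp
        ring
      have h6 : Real.log K * (3 / 10 * -σ) = -(Real.log K * (3 / 10 * σ)) := by ring
      rw [h6, h5]
      have h7 : t / 2 * (3 / 10 * σ) ≤ Real.log K * (3 / 10 * σ) :=
        mul_le_mul_of_nonneg_right hlogK (by positivity)
      linarith
    have h4 : Real.exp (-(3 * η / 80 * t ^ η * Real.log t)) * Real.exp (60 * t ^ (η / 2) * Real.log t)
        ≤ 1 / (512 * t) := by
      rw [← Real.exp_add, le_div_iff₀ (by positivity)]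
      have h5 : 512 * t ≤ Real.exp (2 * Real.log t) := by
        rw [two_mul, Real.exp_add, Real.exp_log ht0]
        nlinarith
      calc _ ≤ Real.exp (-(3 * η / 80 * t ^ η * Real.log t) + 60 * t ^ (η / 2) * Real.log t)
            * Real.exp (2 * Real.log t) := mul_le_mul_of_nonneg_left h5 (Real.exp_pos _).le
        _ = Real.exp (-((3 * η / 80 * t ^ η - (60 * t ^ (η / 2) + 2)) * Real.log t)) := by
            rw [← Real.exp_add]
            congr 1
            ring
        _ ≤ 1 := by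
            rw [Real.exp_le_one_iff]
            have : 0 ≤ (3 * η / 80 * t ^ η - (60 * t ^ (η / 2) + 2)) * Real.log t :=
              mul_nonneg (by linarith) (by linarith)
            linarith
    have hDS0 : 0 ≤ DS (1 - σ) (smp z k) := by unfold DS; positivity
    calc K * S ^ (-σ) * DS (1 - σ) (smp z k)
        ≤ K * Real.exp (-(3 * η / 80 * t ^ η * Real.log t))
            * Real.exp (60 * t ^ (η / 2) * Real.log t) := by gcongr
      _ = K * (Real.exp (-(3 * η / 80 * t ^ η * Real.log t))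
            * Real.exp (60 * t ^ (η / 2) * Real.log t)) := by ring
      _ ≤ K * (1 / (512 * t)) := mul_le_mul_of_nonneg_left h4 hK0.le
      _ = K / (512 * t) := by ring
  have h5 : K / (512 * t) + K / (512 * t) = K / (256 * t) := by
    field_simp
    ring
  linarith

open Filter Topology in
theorem stmt_Smz : Stmt_Smz := by
  intro η hη0 hη1
  have e1 : ∀ᶠ t : ℝ in atTop, Real.log (1024 * t) ≤ t ^ (1 - η) := by
    have h1 := (isLittleO_log_rpow_atTop (r := 1 - η) (by linarith)).bound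
      (show (0 : ℝ) < 1 / 2 by norm_num)
    have h2 : ∀ᶠ t : ℝ in atTop, 2 * Real.log 1024 ≤ t ^ (1 - η) :=
      (tendsto_rpow_atTop (by linarith)).eventually_ge_atTop _
    filter_upwards [h1, h2, eventually_ge_atTop (1 : ℝ)] with t ha hb hc
    rw [Real.log_mul (by norm_num) (by linarith)]
    rw [Real.norm_of_nonneg (Real.log_nonneg hc), Real.norm_of_nonneg (by positivity)] at ha
    linarith
  have e2 : ∀ᶠ t : ℝ in atTop, 60 * t ^ (η / 2) + 2 ≤ 3 * η / 80 * t ^ η := by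
    have h2 : ∀ᶠ t : ℝ in atTop, 62 * 80 / (3 * η) ≤ t ^ (η / 2) :=
      (tendsto_rpow_atTop (by linarith)).eventually_ge_atTop _
    filter_upwards [h2, eventually_ge_atTop (1 : ℝ)] with t hb hc
    have h3 : t ^ η = t ^ (η / 2) * t ^ (η / 2) := by
      rw [← Real.rpow_add (by linarith)]; congr 1; ring
    have h4 : 1 ≤ t ^ (η / 2) := Real.one_le_rpow hc (by linarith)
    rw [div_le_iff₀ (by positivity)] at hb
    rw [h3]
    nlinarith
  obtain ⟨T, hT⟩ := Filter.eventually_atTop.1 (e1.and (e2.and (eventually_ge_atTop (512 : ℝ))))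
  refine ⟨T, fun t K ht hK1 _ k hk hlog => ?_⟩
  obtain ⟨h1, h2, h3⟩ := hT t ht
  exact main η hη0 hη1 t h3 h1 h2 K hK1 k hk hlog

end Pool.Agent.Work.MP_2738db_nt_Z.helper23
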